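import Mathlib
import Pool.Agent.Helper60.CommonBase

set_option autoImplicit false

/-!
# The pattern `a, b, a ^ (b + 1)`: conditions on the monochromatic triples

For every `N`, and every set `D` which is not a set of multiplicative recurrence, there is a finite
colouring of `ℕ` whose monochromatic triples `a, b, a ^ (b + 1)` (`a, b > 1`) all satisfy: `2 ^ N`
divides `a` and `b`; for the primes `q ≤ N` either `q ^ N` divides `a` and `b` or it divides `a + 1`
and `b + 1`; `a` and `b` have prime factors greater than `N` and are `i`-th powers with `i ≥ N`; `a`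
is greater than the tower `2 ^ (2 ^ ⋯ ^ (2 ^ b))` of height `N`; `a + 1`, `b + 1`,
`a ^ (b + 1) + 1` are not in `D`; and `a`, `b` are not powers of one integer. In particular the
pattern with `b` odd is not partition regular.

Ingredients. Let `e (a)` be the exponent of the least prime factor of `a`, so that
`e (a ^ k) = k e (a)`. A colouring `χ (e (a))` with `χ (x) ≠ χ (x d)` for `d ∈ D` forces `b + 1 ∉ D`,
and with the bit `n + 1 ∈ D` in the colour this passes to `a` and to `a ^ (b + 1)`. For the prime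
`q` the set `D` of the `d` with `v_q (d)` not divisible by `K` or `q`-free part not `1` modulo
`q ^ K` gives `q ^ K ∣ b` or `q ^ K ∣ b + 1`. If `b` were odd then `a ^ (b + 1) + 1` would be `2`
modulo `4`. Then `b + 1 ≥ N` and the bit `is a power with exponent ≥ N` passes from `a ^ (b + 1)` to
`a` and `b`. The iterated logarithm modulo `N + 4` gives the last condition.

A condition `P a b` is called *forced* if some finite colouring of `ℕ` has the property that all
monochromatic triples `a, b, a ^ (b + 1)` with `a, b > 1` satisfy `P a b`.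
-/

namespace Pool.Agent.Results.MP_8b5829_co.ForcedConditions

/-- the condition `P` holds for all monochromatic triples of some finite colouring -/
def Forced (P : ℕ → ℕ → Prop) : Prop :=
  ∃ (C : Type) (_ : Finite C) (c : ℕ → C), ∀ a b : ℕ, 1 < a → 1 < b → c a = c b →
    c b = c (a ^ (b + 1)) → P a b

lemma Forced.and {P Q : ℕ → ℕ → Prop} (hP : Forced P) (hQ : Forced Q) :
    Forced fun a b => P a b ∧ Q a b := by
  obtain ⟨C, hC, c, hc⟩ := hP
  obtain ⟨D, hD, d, hd⟩ := hQ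
  refine ⟨C × D, inferInstance, fun n => (c n, d n), fun a b ha hb h1 h2 => ⟨?_, ?_⟩⟩
  · exact hc a b ha hb (Prod.ext_iff.1 h1).1 (Prod.ext_iff.1 h2).1
  · exact hd a b ha hb (Prod.ext_iff.1 h1).2 (Prod.ext_iff.1 h2).2

lemma Forced.mono {P Q : ℕ → ℕ → Prop} (hP : Forced P)
    (h : ∀ a b : ℕ, 1 < a → 1 < b → P a b → Q a b) : Forced Q := by
  obtain ⟨C, hC, c, hc⟩ := hP
  exact ⟨C, hC, c, fun a b ha hb h1 h2 => h a b ha hb (hc a b ha hb h1 h2)⟩

lemma forced_true : Forced fun _ _ => True :=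
  ⟨Unit, inferInstance, fun _ => (), fun _ _ _ _ _ _ => trivial⟩

lemma Forced.ball {P : ℕ → ℕ → ℕ → Prop} (s : Finset ℕ) (h : ∀ q ∈ s, Forced (P q)) :
    Forced fun a b => ∀ q ∈ s, P q a b := by
  classical
  induction s using Finset.induction with
  | empty => exact forced_true.mono fun a b _ _ _ q hq => absurd hq (Finset.notMem_empty q)
  | insert x s hx ih =>
    refine ((h x (Finset.mem_insert_self _ _)).and
      (ih fun q hq => h q (Finset.mem_insert_of_mem hq))).mono ?_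
    intro a b _ _ hab q hq
    rcases Finset.mem_insert.1 hq with rfl | hq
    · exact hab.1
    · exact hab.2 q hq

/-- properties of single numbers are the same for the three terms -/
lemma forced_prop {C : Type} [Finite C] (T : ℕ → C) :
    Forced fun a b => T a = T b ∧ T b = T (a ^ (b + 1)) :=
  ⟨C, inferInstance, T, fun _ _ _ _ h1 h2 => ⟨h1, h2⟩⟩

/-! ### Exponents -/

/-- the exponent of the least prime factor -/
def e (a : ℕ) : ℕ := a.factorization a.minFac

lemma e_ne_zero {a : ℕ} (ha : 1 < a) : e a ≠ 0 := by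
  have hp := Nat.minFac_prime (by omega : a ≠ 1)
  have := hp.factorization_pos_of_dvd (by omega) (Nat.minFac_dvd a)
  exact this.ne'

lemma e_pow {a k : ℕ} (hk : k ≠ 0) : e (a ^ k) = e a * k := by
  unfold e
  rw [Nat.pow_minFac hk, Nat.factorization_pow]
  simp [mul_comm]

/-- `D` is not a set of multiplicative recurrence -/
def NotRecurrent (D : Set ℕ) : Prop :=
  ∃ (r : ℕ) (χ : ℕ → Fin r), ∀ x d : ℕ, 0 < x → d ∈ D → χ x ≠ χ (x * d)

/-- the three numbers `a + 1`, `b + 1`, `a ^ (b + 1) + 1` avoid `D` -/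
lemma forced_avoid {D : Set ℕ} (hD : NotRecurrent D) :
    Forced fun a b => a + 1 ∉ D ∧ b + 1 ∉ D ∧ a ^ (b + 1) + 1 ∉ D := by
  obtain ⟨r, χ, hχ⟩ := hD
  have h1 : Forced fun a b => χ (e a) = χ (e (a ^ (b + 1))) :=
    (forced_prop fun n => χ (e n)).mono fun a b _ _ h => h.1.trans h.2
  have h2 := forced_prop fun n => n + 1 ∈ D
  refine (h1.and h2).mono ?_
  rintro a b ha hb ⟨h3, h4, h5⟩
  have hb1 : b + 1 ∉ D := by
    intro hmem
    rw [e_pow (by omega)] at h3
    exact hχ _ _ (Nat.pos_of_ne_zero (e_ne_zero ha)) hmem h3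
  refine ⟨?_, hb1, ?_⟩
  · rw [h4]; exact hb1
  · rw [← h5]; exact hb1

/-! ### Congruences -/

/-- the set excluded by the prime `q` -/
def bad (q K : ℕ) : Set ℕ := {d | 0 < d ∧ ¬ (K ∣ d.factorization q ∧ q ^ K ∣ ordCompl[q] d - 1)}

lemma notRecurrent_bad {q : ℕ} (hq : q.Prime) {K : ℕ} (hK : 0 < K) : NotRecurrent (bad q K) := by
  have hqK : 0 < q ^ K := pow_pos hq.pos K
  have : NeZero K := ⟨hK.ne'⟩
  have : NeZero (q ^ K) := ⟨hqK.ne'⟩
  set χ : ℕ → ZMod K × ZMod (q ^ K) := fun x =>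
    (((x.factorization q : ℕ) : ZMod K), ((ordCompl[q] x : ℕ) : ZMod (q ^ K))) with hχ
  obtain ⟨r, ⟨f⟩⟩ := Finite.exists_equiv_fin (ZMod K × ZMod (q ^ K))
  refine ⟨r, fun x => f (χ x), fun x d hx hd h => ?_⟩
  obtain ⟨hd0, hd⟩ := hd
  apply hd
  have h1 := f.injective h
  simp only [hχ, Prod.mk.injEq] at h1
  obtain ⟨h2, h3⟩ := h1
  rw [Nat.factorization_mul hx.ne' hd0.ne', Finsupp.add_apply] at h2
  rw [Nat.ordCompl_mul] at h3
  push_cast at h2 h3
  constructor
  · rw [← ZMod.natCast_eq_zero_iff]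
    simpa using h2.symm
  · have hu : IsUnit ((ordCompl[q] x : ℕ) : ZMod (q ^ K)) := by
      rw [ZMod.isUnit_iff_coprime]
      exact ((Nat.coprime_ordCompl hq hx.ne').pow_left K).symm
    have hd1 : 1 ≤ ordCompl[q] d := Nat.ordCompl_pos q hd0.ne'
    rw [← ZMod.natCast_eq_zero_iff, Nat.cast_sub hd1]
    have h4 : ((ordCompl[q] x : ℕ) : ZMod (q ^ K)) * (((ordCompl[q] d : ℕ) : ZMod (q ^ K)) - 1) = 0 := by
      rw [mul_sub, mul_one, ← h3, sub_self]
    have h5 := hu.mul_right_eq_zero.1 h4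
    push_cast
    exact h5

lemma of_notMem_bad {q K n : ℕ} (hq : q.Prime) (h : n + 1 ∉ bad q K) :
    q ^ K ∣ n ∨ q ^ K ∣ n + 1 := by
  have h1 : K ∣ (n + 1).factorization q ∧ q ^ K ∣ ordCompl[q] (n + 1) - 1 := by
    by_contra hcon
    exact h ⟨Nat.succ_pos n, hcon⟩
  by_cases hd : q ∣ n + 1
  · right
    have hpos : 0 < (n + 1).factorization q := hq.factorization_pos_of_dvd (by omega) hd
    exact (pow_dvd_pow q (Nat.le_of_dvd hpos h1.1)).trans (Nat.ordProj_dvd _ _)
  · left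
    have h2 : ordCompl[q] (n + 1) = n + 1 := by
      rw [Nat.factorization_eq_zero_of_not_dvd hd]
      simp
    have h3 := h1.2
    rw [h2] at h3
    simpa using h3

/-- the congruences modulo `q ^ K` -/
lemma forced_prime {q : ℕ} (hq : q.Prime) {K : ℕ} (hK : 0 < K) :
    Forced fun a b => (q ^ K ∣ a ∧ q ^ K ∣ b) ∨ (q ^ K ∣ a + 1 ∧ q ^ K ∣ b + 1) := by
  have : NeZero q := ⟨hq.ne_zero⟩
  refine ((forced_avoid (notRecurrent_bad hq hK)).and
    (forced_prop fun n => (n : ZMod q))).mono ?_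
  rintro a b ha hb ⟨⟨h1, h2, -⟩, h3, -⟩
  have hqK : q ∣ q ^ K := dvd_pow_self q hK.ne'
  have key : ∀ x y : ℕ, (x : ZMod q) = (y : ZMod q) → q ^ K ∣ x → ¬ q ^ K ∣ y + 1 := by
    intro x y hxy hx hy
    have hx0 : (x : ZMod q) = 0 := (ZMod.natCast_eq_zero_iff _ _).2 (hqK.trans hx)
    have hy0 : ((y + 1 : ℕ) : ZMod q) = 0 := (ZMod.natCast_eq_zero_iff _ _).2 (hqK.trans hy)
    push_cast at hy0
    rw [← hxy, hx0, zero_add] at hy0
    have : Fact q.Prime := ⟨hq⟩
    exact one_ne_zero hy0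
  rcases of_notMem_bad hq h1 with h4 | h4 <;> rcases of_notMem_bad hq h2 with h5 | h5
  · exact Or.inl ⟨h4, h5⟩
  · exact absurd h5 (key a b h3 h4)
  · exact absurd h4 (key b a h3.symm h5)
  · exact Or.inr ⟨h4, h5⟩

/-- both numbers are divisible by a high power of two -/
lemma forced_two {K : ℕ} (hK : 1 < K) : Forced fun a b => 2 ^ K ∣ a ∧ 2 ^ K ∣ b := by
  refine ((forced_prime Nat.prime_two (K := K) (by omega)).and
    (forced_avoid (notRecurrent_bad Nat.prime_two (K := K) (by omega)))).mono ?_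
  rintro a b ha hb ⟨h1 | h1, -, -, h3⟩
  · exact h1
  · exfalso
    have h2K : 4 ∣ 2 ^ K := by
      have := pow_dvd_pow 2 hK
      exact this
    have ha4 : a % 4 = 3 := by have := h2K.trans h1.1; omega
    have hb2 : (b + 1) % 2 = 0 := by have := h2K.trans h1.2; omega
    have hc : a ^ (b + 1) % 4 = 1 := by
      obtain ⟨m, hm⟩ : ∃ m, b + 1 = 2 * m := ⟨(b + 1) / 2, by omega⟩
      rw [hm, pow_mul, Nat.pow_mod]
      have : a ^ 2 % 4 = 1 := by rw [Nat.pow_mod, ha4]
      rw [this, one_pow, Nat.one_mod]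
    rcases of_notMem_bad Nat.prime_two h3 with h4 | h4
    · have := h2K.trans h4; omega
    · have := h2K.trans h4; omega

/-! ### Powers -/

/-- both numbers are high powers -/
lemma forced_pow (N : ℕ) :
    Forced fun a b => (∃ x i, N ≤ i ∧ a = x ^ i) ∧ ∃ y j, N ≤ j ∧ b = y ^ j := by
  refine ((forced_two (K := N + 2) (by omega)).and
    (forced_prop fun n => ∃ x i, N ≤ i ∧ n = x ^ i)).mono ?_
  rintro a b ha hb ⟨⟨-, h2⟩, h3, h4⟩
  have hb0 : N ≤ b + 1 := by
    have h5 : 2 ^ (N + 2) ≤ b := Nat.le_of_dvd (by omega) h2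
    have h6 : N + 2 < 2 ^ (N + 2) := Nat.lt_two_pow_self
    omega
  have hc : ∃ x i, N ≤ i ∧ a ^ (b + 1) = x ^ i := ⟨a, b + 1, hb0, rfl⟩
  have hb' : ∃ y j, N ≤ j ∧ b = y ^ j := by rw [h4]; exact hc
  exact ⟨by rw [h3]; exact hb', hb'⟩

/-! ### A prime factor -/

/-- a suitable prime modulus -/
lemma exists_modulus (S : Finset ℕ) (hS : ∀ p ∈ S, p.Prime) :
    ∃ q : ℕ, q.Prime ∧ q % 8 = 7 ∧ q ∉ S ∧ ∀ p ∈ S, (q : ZMod p) = -1 := by
  classical
  set N : ℕ := 8 * ∏ p ∈ S, p with hN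
  have hNpos : 0 < N := by
    have : 0 < ∏ p ∈ S, p := Finset.prod_pos fun p hp => (hS p hp).pos
    omega
  have hcop : (N - 1).Coprime N := by
    have h1 : (N - 1).Coprime (N - 1 + 1) := by simp
    rwa [Nat.sub_add_cancel hNpos] at h1
  obtain ⟨q, hgt, hq, hmod⟩ := Nat.forall_exists_prime_gt_and_modEq (∑ p ∈ S, p) hNpos.ne' hcop
  have hdvd : N ∣ q + 1 := by
    have h2 : q + 1 ≡ (N - 1) + 1 [MOD N] := Nat.ModEq.add_right 1 hmod
    rw [Nat.sub_add_cancel hNpos] at h2
    exact (Nat.modEq_zero_iff_dvd).1 (h2.trans (by simp [Nat.ModEq]))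
  refine ⟨q, hq, ?_, ?_, ?_⟩
  · have h8 : 8 ∣ q + 1 := (Dvd.intro _ rfl : 8 ∣ N).trans hdvd
    omega
  · intro hqS
    have : q ≤ ∑ p ∈ S, p := Finset.single_le_sum (f := fun p => p) (fun _ _ => Nat.zero_le _) hqS
    omega
  · intro p hp
    have hpd : p ∣ q + 1 := ((Finset.dvd_prod_of_mem _ hp).trans (Dvd.intro_left 8 rfl)).trans hdvd
    have : ((q + 1 : ℕ) : ZMod p) = 0 := (ZMod.natCast_eq_zero_iff _ _).2 hpd
    push_cast at this
    exact eq_neg_of_add_eq_zero_left this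

lemma isSquare_of_mem {p q : ℕ} (hp : p.Prime) (hq : q.Prime) (hq8 : q % 8 = 7) (hpq : p ≠ q)
    (h : (q : ZMod p) = -1) : IsSquare (p : ZMod q) := by
  have : Fact p.Prime := ⟨hp⟩
  have : Fact q.Prime := ⟨hq⟩
  have hq2 : q ≠ 2 := by rintro rfl; omega
  rcases hp.eq_two_or_odd with rfl | hodd
  · have := (ZMod.exists_sq_eq_two_iff hq2).2 (Or.inr hq8)
    exact_mod_cast this
  · have h4 : p % 4 = 1 ∨ p % 4 = 3 := by omega
    rcases h4 with h4 | h4
    · rw [← ZMod.exists_sq_eq_prime_iff_of_mod_four_eq_one h4 hq2, h, ZMod.exists_sq_eq_neg_one_iff]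
      omega
    · by_contra hns
      have := (ZMod.exists_sq_eq_prime_iff_of_mod_four_eq_three h4 (by omega) hpq).2 hns
      rw [h, ZMod.exists_sq_eq_neg_one_iff] at this
      exact this h4

lemma isSquare_of_smooth {q : ℕ} [Fact q.Prime] {S : Finset ℕ}
    (hsq : ∀ p ∈ S, IsSquare (p : ZMod q)) (b : ℕ) (hb : 0 < b)
    (hbS : ∀ p : ℕ, p.Prime → p ∣ b → p ∈ S) : IsSquare (b : ZMod q) := by
  induction b using Nat.recOnMul with
  | zero => exact absurd hb (lt_irrefl 0)
  | one => simp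
  | prime p hp => exact hsq p (hbS p hp dvd_rfl)
  | mul m n hm hn =>
    push_cast
    exact (hm (Nat.pos_of_mul_pos_right hb) fun p hp hd => hbS p hp (hd.mul_right n)).mul
      (hn (Nat.pos_of_mul_pos_left hb) fun p hp hd => hbS p hp (hd.mul_left m))

/-- both numbers have a large prime factor -/
lemma forced_factor (N : ℕ) :
    Forced fun a b => (∃ p, p.Prime ∧ N < p ∧ p ∣ a) ∧ ∃ p, p.Prime ∧ N < p ∧ p ∣ b := by
  classical
  set S : Finset ℕ := (Finset.range (N + 1)).filter Nat.Prime with hS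
  have hSp : ∀ p ∈ S, p.Prime := fun p hp => (Finset.mem_filter.1 hp).2
  obtain ⟨q, hq, hq8, hqS, hneg⟩ := exists_modulus S hSp
  have : Fact q.Prime := ⟨hq⟩
  have hqN : N < q := by
    by_contra hcon
    exact hqS (Finset.mem_filter.2 ⟨Finset.mem_range.2 (by omega), hq⟩)
  have hsq : ∀ p ∈ S, IsSquare (p : ZMod q) := fun p hp =>
    isSquare_of_mem (hSp p hp) hq hq8 (fun h => hqS (h ▸ hp)) (hneg p hp)
  have key : ∀ x : ℕ, 1 < x → q ∣ x ∨ q ∣ x + 1 → ∃ p, p.Prime ∧ N < p ∧ p ∣ x := by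
    intro x hx h
    rcases h with h | h
    · exact ⟨q, hq, hqN, h⟩
    · by_contra hcon
      have hs := isSquare_of_smooth hsq x (by omega) (fun p hp hd => by
        refine Finset.mem_filter.2 ⟨Finset.mem_range.2 ?_, hp⟩
        by_contra hc
        exact hcon ⟨p, hp, by omega, hd⟩)
      have h1 : ((x + 1 : ℕ) : ZMod q) = 0 := (ZMod.natCast_eq_zero_iff _ _).2 h
      push_cast at h1
      rw [eq_neg_of_add_eq_zero_left h1, ZMod.exists_sq_eq_neg_one_iff] at hs
      omega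
  refine (forced_prime hq (K := 1) one_pos).mono ?_
  intro a b ha hb h
  rw [pow_one] at h
  rcases h with h | h
  · exact ⟨key a ha (Or.inl h.1), key b hb (Or.inl h.2)⟩
  · exact ⟨key a ha (Or.inr h.1), key b hb (Or.inr h.2)⟩

/-! ### Size -/

/-- `2 ^ (2 ^ ( ... ^ x))`, with `h` twos -/
def tower : ℕ → ℕ → ℕ
  | 0, x => x
  | h + 1, x => 2 ^ tower h x

lemma tower_add (h k x : ℕ) : tower (h + k) x = tower h (tower k x) := by
  induction h with
  | zero => rw [Nat.zero_add, tower]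
  | succ h ih => rw [Nat.succ_add, tower, ih, tower]

lemma tower_strictMono (h : ℕ) : StrictMono (tower h) := by
  induction h with
  | zero => exact strictMono_id
  | succ h ih => exact fun x y hxy => Nat.pow_lt_pow_right (by norm_num) (ih hxy)

lemma tower_lt_succ (h x : ℕ) : tower h x < tower (h + 1) x := Nat.lt_two_pow_self

lemma strictMono_tower (x : ℕ) : StrictMono fun h => tower h x :=
  strictMono_nat_of_lt_succ fun h => tower_lt_succ h x

/-- the height of a number -/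
def height (n : ℕ) : ℕ := Nat.findGreatest (fun k => tower k 1 ≤ n) n

lemma tower_height_le {n : ℕ} (hn : 0 < n) : tower (height n) 1 ≤ n :=
  Nat.findGreatest_spec (P := fun k => tower k 1 ≤ n) (Nat.zero_le n) hn

lemma le_height {n k : ℕ} (h : tower k 1 ≤ n) : k ≤ height n := by
  have h1 : k ≤ tower k 1 := (strictMono_tower 1).id_le k
  exact Nat.le_findGreatest (h1.trans h) h

lemma lt_tower_height (n : ℕ) : n < tower (height n + 1) 1 := by
  by_contra hcon
  have := le_height (not_lt.1 hcon)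
  omega

lemma two_mul_le_pow {y : ℕ} (hy : 0 < y) : 2 * y ≤ 2 ^ y := by
  induction y with
  | zero => exact absurd hy (lt_irrefl 0)
  | succ y ih =>
    rcases Nat.eq_zero_or_pos y with rfl | h
    · norm_num
    · have := ih h
      have h1 : 2 ≤ 2 ^ y := by
        calc 2 = 2 ^ 1 := rfl
          _ ≤ 2 ^ y := Nat.pow_le_pow_right (by norm_num) h
      rw [pow_succ]
      omega

lemma pow_self_le {y : ℕ} (hy : 0 < y) : y ^ y ≤ tower 3 y := by
  have h1 : y ^ y ≤ 2 ^ (y * y) := by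
    rw [pow_mul]
    exact Nat.pow_le_pow_left Nat.lt_two_pow_self.le y
  have h2 : y * y ≤ 2 ^ (2 * y) := by
    rw [two_mul, pow_add]
    exact Nat.mul_le_mul Nat.lt_two_pow_self.le Nat.lt_two_pow_self.le
  have h3 : 2 ^ (2 * y) ≤ 2 ^ (2 ^ y) := Nat.pow_le_pow_right (by norm_num) (two_mul_le_pow hy)
  exact h1.trans (Nat.pow_le_pow_right (by norm_num) (h2.trans h3))

/-- the base is very large -/
lemma forced_large (h : ℕ) : Forced fun a b => tower h b < a := by
  have : NeZero (h + 4) := ⟨by omega⟩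
  refine (forced_prop fun n => (height n : ZMod (h + 4))).mono ?_
  rintro a b ha hb ⟨-, h2⟩
  by_contra hcon
  have hc : 0 < a ^ (b + 1) := pow_pos (by omega) _
  have h3 : height b + 1 ≤ height (a ^ (b + 1)) := by
    refine le_height ?_
    calc tower (height b + 1) 1 = 2 ^ tower (height b) 1 := rfl
      _ ≤ 2 ^ b := Nat.pow_le_pow_right (by norm_num) (tower_height_le (by omega))
      _ ≤ 2 ^ (b + 1) := Nat.pow_le_pow_right (by norm_num) (by omega)
      _ ≤ a ^ (b + 1) := Nat.pow_le_pow_left ha _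
  have h4 : height b + (h + 4) ≤ height (a ^ (b + 1)) := by
    have h5 : height b ≡ height (a ^ (b + 1)) [MOD h + 4] :=
      (ZMod.natCast_eq_natCast_iff _ _ _).1 h2
    have h6 : h + 4 ∣ height (a ^ (b + 1)) - height b := (Nat.modEq_iff_dvd' (by omega)).1 h5
    have := Nat.le_of_dvd (by omega) h6
    omega
  set y := tower (h + (height b + 1)) 1 with hy
  have hy0 : 0 < y := lt_of_lt_of_le one_pos ((strictMono_tower 1).monotone (Nat.zero_le _))
  have hby : tower h b < y := by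
    rw [hy, tower_add]
    exact tower_strictMono h (lt_tower_height b)
  have hbb : b ≤ tower h b := (strictMono_tower b).monotone (Nat.zero_le h)
  have h7 : a ^ (b + 1) < y ^ y := by
    calc a ^ (b + 1) < y ^ (b + 1) := Nat.pow_lt_pow_left (by omega) (by omega)
      _ ≤ y ^ y := Nat.pow_le_pow_right hy0 (by omega)
  have h8 : tower (height b + (h + 4)) 1 ≤ a ^ (b + 1) :=
    ((strictMono_tower 1).monotone h4).trans (tower_height_le hc)
  have h9 : tower (height b + (h + 4)) 1 = tower 3 y := by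
    rw [hy, ← tower_add]
    congr 1
    omega
  have h10 := pow_self_le hy0
  omega

/-- the two numbers are not powers of one integer -/
lemma forced_base : Forced fun a b => ¬ ∃ m i j : ℕ, a = m ^ i ∧ b = m ^ j := by
  obtain ⟨c, hc⟩ := Pool.Agent.Helper60.CommonBase.common_base7
  exact (forced_prop c).mono fun a b ha hb h hm => hc a b ha hb hm (h.1.trans h.2)

/-- **Conditions on the monochromatic triples `a, b, a ^ (b + 1)`.** -/
theorem result (N : ℕ) (D : Set ℕ) (hD : NotRecurrent D) :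
    ∃ (r : ℕ) (c : ℕ → Fin r), ∀ a b : ℕ, 1 < a → 1 < b → c a = c b → c b = c (a ^ (b + 1)) →
      (2 ^ N ∣ a ∧ 2 ^ N ∣ b) ∧
      (∀ q : ℕ, q.Prime → q ≤ N → (q ^ N ∣ a ∧ q ^ N ∣ b) ∨ (q ^ N ∣ a + 1 ∧ q ^ N ∣ b + 1)) ∧
      ((∃ p, p.Prime ∧ N < p ∧ p ∣ a) ∧ ∃ p, p.Prime ∧ N < p ∧ p ∣ b) ∧
      ((∃ x i, N ≤ i ∧ a = x ^ i) ∧ ∃ y j, N ≤ j ∧ b = y ^ j) ∧
      tower N b < a ∧
      (a + 1 ∉ D ∧ b + 1 ∉ D ∧ a ^ (b + 1) + 1 ∉ D) ∧
      ¬ ∃ m i j : ℕ, a = m ^ i ∧ b = m ^ j := by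
  classical
  have h1 : Forced fun a b => 2 ^ N ∣ a ∧ 2 ^ N ∣ b :=
    (forced_two (K := N + 2) (by omega)).mono fun a b _ _ h =>
      ⟨(pow_dvd_pow 2 (by omega)).trans h.1, (pow_dvd_pow 2 (by omega)).trans h.2⟩
  have h2 : Forced fun a b => ∀ q ∈ (Finset.range (N + 1)).filter Nat.Prime,
      (q ^ N ∣ a ∧ q ^ N ∣ b) ∨ (q ^ N ∣ a + 1 ∧ q ^ N ∣ b + 1) := by
    refine Forced.ball _ fun q hq => ?_
    have hqp : q.Prime := (Finset.mem_filter.1 hq).2
    rcases Nat.eq_zero_or_pos N with rfl | hN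
    · exact forced_true.mono fun a b _ _ _ => Or.inl ⟨by simp, by simp⟩
    · exact forced_prime hqp hN
  obtain ⟨C, hC, c, hc⟩ := ((((((h1.and h2).and (forced_factor N)).and (forced_pow N)).and
    (forced_large N)).and (forced_avoid hD)).and forced_base)
  obtain ⟨r, ⟨f⟩⟩ := Finite.exists_equiv_fin C
  refine ⟨r, fun n => f (c n), fun a b ha hb h3 h4 => ?_⟩
  obtain ⟨⟨⟨⟨⟨⟨g1, g2⟩, g3⟩, g4⟩, g5⟩, g6⟩, g7⟩ := hc a b ha hb (f.injective h3) (f.injective h4)
  refine ⟨g1, fun q hq hqN => ?_, g3, g4, g5, g6, g7⟩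
  exact g2 q (Finset.mem_filter.2 ⟨Finset.mem_range.2 (by omega), hq⟩)

end Pool.Agent.Results.MP_8b5829_co.ForcedConditions
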