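import Mathlib
import Pool.Agent.Helper6.REC.Base

set_option autoImplicit false

/-!
# The pattern `a, b, a ^ (b + 1)`: the structure of a colouring without it

Let `c` be a finite colouring of `ℕ` without `a, b > 1` such that `a, b, a ^ (b + 1)` have the same
colour. A colour `j` is small if the set of the `b + 1` with `b > 1` of colour `j` is not a set of
multiplicative recurrence, and `D` is the set of the `b + 1` with `b > 1` of a small colour. Then `D`
is not a set of multiplicative recurrence, at least two small colours and a colour which is not small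
occur, and for every `k` there is a finite set `S` of positive integers such that for all
`x_1, …, x_k > 1` some `s ∈ S` has `x_l ^ (s i) + 1 ∈ D` for all `l, i ≤ k`.
-/

namespace Pool.Agent.Results.MP_8b5829_co.SmallColours

open Pool.Agent.Helper6.REC

/-- **Colourings without the pattern `a, b, a ^ (b + 1)`.** The first two statements hold for every
finite colouring, the others for the colourings without the pattern. -/
theorem result (r : ℕ) (c : ℕ → Fin r) :
    NotRecurrent (smallMult c) ∧
      (∃ b, 1 < b ∧ ¬ Small c (c b)) ∧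
      ((∀ a b : ℕ, 1 < a → 1 < b → c a = c b → c b ≠ c (a ^ (b + 1))) →
        (∃ b b', 1 < b ∧ 1 < b' ∧ Small c (c b) ∧ Small c (c b') ∧ c b ≠ c b') ∧
        ∀ k : ℕ, ∃ S : Finset ℕ, (∀ s ∈ S, 0 < s) ∧ ∀ x : Fin k → ℕ, (∀ l, 1 < x l) →
          ∃ s ∈ S, ∀ l, ∀ i, 0 < i → i ≤ k → x l ^ (s * i) + 1 ∈ smallMult c) := by
  refine ⟨notRecurrent_smallMult c, exists_not_small c, fun hc => ⟨two_small hc, fun k => ?_⟩⟩
  obtain ⟨S, hS, h⟩ := exists_finset hc k
  refine ⟨S, hS, fun x hx => ?_⟩
  obtain ⟨s, hs, h1⟩ := h x hx
  exact ⟨s, hs, fun l i hi hik => ⟨_, Nat.one_lt_pow (Nat.mul_pos (hS s hs) hi).ne' (hx l),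
    h1 l i hi hik, rfl⟩⟩

end Pool.Agent.Results.MP_8b5829_co.SmallColours
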