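import Mathlib

set_option autoImplicit false

/-!
# The pattern `a, a ^ (b + 1)` with `b` a product of primes from a fixed finite set

For every finite set `S` of primes there is a finite colouring of `ℕ` such that `a` and
`a ^ (b + 1)` never have the same colour when `a > 1` and `b ≥ 1` has all its prime factors in `S`.

The idea: write `e(a)` for the exponent of the least prime factor of `a` in `a`, so that
`e(a ^ k) = k * e(a)`.  Choose a prime `q ≡ 7 (mod 8)` with `q ≡ -1 (mod p)` for all `p ∈ S`;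
then all elements of `S` are squares modulo `q` and `-1` is not.  Colour `a` by the residue
modulo `q` of the `q`-free part of `e(a)`.
-/

namespace Pool.Agent.Results.MP_8b5829_co.SmoothExponents

/-- the exponent of the least prime factor -/
def e (a : ℕ) : ℕ := a.factorization a.minFac

lemma e_ne_zero {a : ℕ} (ha : 1 < a) : e a ≠ 0 := by
  have hp := Nat.minFac_prime (by omega : a ≠ 1)
  have := hp.factorization_pos_of_dvd (by omega) (Nat.minFac_dvd a)
  exact this.ne'

lemma e_pow {a k : ℕ} (hk : k ≠ 0) : e (a ^ k) = k * e a := by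
  unfold e
  rw [Nat.pow_minFac hk, Nat.factorization_pow]
  simp

/-- the colour: residue modulo `q` of the `q`-free part of `e a` -/
def col (q : ℕ) (a : ℕ) : ZMod q := ((ordCompl[q] (e a) : ℕ) : ZMod q)

lemma col_ne {q a b : ℕ} [hq : Fact q.Prime] (ha : 1 < a)
    (hb0 : (b : ZMod q) ≠ 0) (hb1 : (b : ZMod q) ≠ -1) : col q a ≠ col q (a ^ (b + 1)) := by
  intro h
  unfold col at h
  rw [e_pow (by omega), Nat.ordCompl_mul] at h
  have hnd : ¬ q ∣ b + 1 := by
    intro hd
    apply hb1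
    have : ((b + 1 : ℕ) : ZMod q) = 0 := (ZMod.natCast_eq_zero_iff _ _).2 hd
    push_cast at this
    exact eq_neg_of_add_eq_zero_left this
  have h1 : ordCompl[q] (b + 1) = b + 1 := by
    rw [Nat.factorization_eq_zero_of_not_dvd hnd]
    simp
  rw [h1] at h
  have hne : ((ordCompl[q] (e a) : ℕ) : ZMod q) ≠ 0 := by
    rw [Ne, ZMod.natCast_eq_zero_iff]
    exact Nat.not_dvd_ordCompl hq.out (e_ne_zero ha)
  push_cast at h
  have h2 : (b : ZMod q) * ((ordCompl[q] (e a) : ℕ) : ZMod q) = 0 := by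
    have h3 : (((b : ZMod q) + 1) * ((ordCompl[q] (e a) : ℕ) : ZMod q)) =
      ((ordCompl[q] (e a) : ℕ) : ZMod q) := h.symm
    linear_combination h3
  rcases mul_eq_zero.1 h2 with h3 | h3
  · exact hb0 h3
  · exact hne h3

/-- a suitable prime modulus -/
lemma exists_modulus (S : Finset ℕ) (hS : ∀ p ∈ S, p.Prime) :
    ∃ q : ℕ, q.Prime ∧ q % 8 = 7 ∧ q ∉ S ∧ ∀ p ∈ S, (q : ZMod p) = -1 := by
  classical
  set N : ℕ := 8 * ∏ p ∈ S, p with hN
  have hNpos : 0 < N := by
    have : 0 < ∏ p ∈ S, p := Finset.prod_pos fun p hp => (hS p hp).pos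
    omega
  have hcop : (N - 1).Coprime N := by
    have h1 : (N - 1).Coprime (N - 1 + 1) := by simp
    rwa [Nat.sub_add_cancel hNpos] at h1
  obtain ⟨q, hgt, hq, hmod⟩ := Nat.forall_exists_prime_gt_and_modEq (∑ p ∈ S, p) hNpos.ne' hcop
  have hdvd : N ∣ q + 1 := by
    have h2 : q + 1 ≡ (N - 1) + 1 [MOD N] := Nat.ModEq.add_right 1 hmod
    rw [Nat.sub_add_cancel hNpos] at h2
    exact (Nat.modEq_zero_iff_dvd).1 (h2.trans (by simp [Nat.ModEq]))
  refine ⟨q, hq, ?_, ?_, ?_⟩
  · have h8 : 8 ∣ q + 1 := (Dvd.intro _ rfl : 8 ∣ N).trans hdvd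
    omega
  · intro hqS
    have : q ≤ ∑ p ∈ S, p := Finset.single_le_sum (f := fun p => p) (fun _ _ => Nat.zero_le _) hqS
    omega
  · intro p hp
    have hpd : p ∣ q + 1 := ((Finset.dvd_prod_of_mem _ hp).trans (Dvd.intro_left 8 rfl)).trans hdvd
    have : ((q + 1 : ℕ) : ZMod p) = 0 := (ZMod.natCast_eq_zero_iff _ _).2 hpd
    push_cast at this
    exact eq_neg_of_add_eq_zero_left this

lemma isSquare_of_mem {p q : ℕ} (hp : p.Prime) (hq : q.Prime) (hq8 : q % 8 = 7) (hpq : p ≠ q)
    (h : (q : ZMod p) = -1) : IsSquare (p : ZMod q) := by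
  have : Fact p.Prime := ⟨hp⟩
  have : Fact q.Prime := ⟨hq⟩
  have hq2 : q ≠ 2 := by rintro rfl; omega
  rcases hp.eq_two_or_odd with rfl | hodd
  · have := (ZMod.exists_sq_eq_two_iff hq2).2 (Or.inr hq8)
    exact_mod_cast this
  · have h4 : p % 4 = 1 ∨ p % 4 = 3 := by omega
    rcases h4 with h4 | h4
    · rw [← ZMod.exists_sq_eq_prime_iff_of_mod_four_eq_one h4 hq2, h, ZMod.exists_sq_eq_neg_one_iff]
      omega
    · by_contra hns
      have := (ZMod.exists_sq_eq_prime_iff_of_mod_four_eq_three h4 (by omega) hpq).2 hns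
      rw [h, ZMod.exists_sq_eq_neg_one_iff] at this
      exact this h4

lemma isSquare_of_smooth {q : ℕ} [Fact q.Prime] {S : Finset ℕ}
    (hsq : ∀ p ∈ S, IsSquare (p : ZMod q)) (b : ℕ) (hb : 0 < b)
    (hbS : ∀ p : ℕ, p.Prime → p ∣ b → p ∈ S) : IsSquare (b : ZMod q) := by
  induction b using Nat.recOnMul with
  | zero => exact absurd hb (lt_irrefl 0)
  | one => simp
  | prime p hp => exact hsq p (hbS p hp dvd_rfl)
  | mul m n hm hn =>
    push_cast
    exact (hm (Nat.pos_of_mul_pos_right hb) fun p hp hd => hbS p hp (hd.mul_right n)).mul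
      (hn (Nat.pos_of_mul_pos_left hb) fun p hp hd => hbS p hp (hd.mul_left m))

/-- For every finite set `S` of primes there is a finite colouring of the positive integers
without `a > 1` and `b ≥ 1` such that all prime factors of `b` lie in `S` and `a`, `a ^ (b + 1)`
have the same colour. -/
theorem result :
    ∀ S : Finset ℕ, (∀ p ∈ S, p.Prime) →
      ∃ (r : ℕ) (c : ℕ → Fin r), ∀ a b : ℕ, 1 < a → 0 < b →
        (∀ p : ℕ, p.Prime → p ∣ b → p ∈ S) → c a ≠ c (a ^ (b + 1)) := by
  intro S hS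
  obtain ⟨q, hq, hq8, hqS, hneg⟩ := exists_modulus S hS
  have : Fact q.Prime := ⟨hq⟩
  have hsq : ∀ p ∈ S, IsSquare (p : ZMod q) := fun p hp =>
    isSquare_of_mem (hS p hp) hq hq8 (fun h => hqS (h ▸ hp)) (hneg p hp)
  refine ⟨q, fun a => (ZMod.finEquiv q).symm (col q a), fun a b ha hb hbS h => ?_⟩
  have h1 : col q a = col q (a ^ (b + 1)) := (ZMod.finEquiv q).symm.injective h
  refine col_ne ha ?_ ?_ h1
  · intro h0
    have hd : q ∣ b := (ZMod.natCast_eq_zero_iff _ _).1 h0
    exact hqS (hbS q hq hd)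
  · intro hm
    have := isSquare_of_smooth hsq b hb hbS
    rw [hm, ZMod.exists_sq_eq_neg_one_iff] at this
    omega

end Pool.Agent.Results.MP_8b5829_co.SmoothExponents
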