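import Mathlib
import Pool.Agent.Helper6.REC.Base

set_option autoImplicit false

/-!
# The pattern `a, b, a ^ (b + 1)` for three colours

A colouring of `ℕ` with three colours without monochromatic `a, b, a ^ (b + 1)`, `a, b > 1`, exists if
and only if there is a set `W` of integers `≥ 3` such that no product of an odd number of elements of
`W` is equal to a product of an even number of elements of `W`, and `a ^ (b + 1) + 1 ∈ W` for all
`a, b > 1` with `a + 1, b + 1 ∉ W`.
-/

namespace Pool.Agent.Results.MP_8b5829_co.ThreeColours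

open Pool.Agent.Helper6.REC

/-- no product of an odd number of elements of `W` is a product of an even number of them -/
def NoOddRelation (W : Set ℕ) : Prop :=
  ∀ u v : List ℕ, (∀ w ∈ u, w ∈ W) → (∀ w ∈ v, w ∈ W) → u.prod = v.prod →
    (Even u.length ↔ Even v.length)

/-! ### From the colouring to the set -/

lemma third {j0 j1 j2 j : Fin 3} (h01 : j0 ≠ j1) (h02 : j0 ≠ j2) (h12 : j1 ≠ j2) (h : j ≠ j0) :
    j = j1 ∨ j = j2 := by
  revert h01 h02 h12 h
  revert j0 j1 j2 j
  decide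

lemma swap {c χ : ℕ → Fin 3} (hg : Good c χ) {b1 b2 : ℕ} (hb1 : 1 < b1) (hb2 : 1 < b2)
    (hχ : ∀ t, 0 < t → χ t = c b1 ∨ χ t = c b2) {t b : ℕ}
    (ht : 0 < t) (hb : 1 < b) (hcb : c b = c b1 ∨ c b = c b2) : χ (t * (b + 1)) ≠ χ t := by
  have hb0 : 0 < b + 1 := by omega
  -- a multiplier of the colour of `t`
  obtain ⟨b', hb', hcb'⟩ : ∃ b', 1 < b' ∧ χ t = c b' := by
    rcases hχ t ht with h | h
    · exact ⟨b1, hb1, h⟩
    · exact ⟨b2, hb2, h⟩
  intro he
  by_cases hcase : χ t = c b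
  · exact hg t b ht hb hcase (he.trans hcase)
  · have h1 : χ (t * (b' + 1)) ≠ c b' := hg t b' ht hb' hcb'
    have h2 : χ (t * (b + 1) * (b' + 1)) ≠ c b' :=
      hg _ b' (Nat.mul_pos ht hb0) hb' (he.trans hcb')
    have key : ∀ s, 0 < s → χ s ≠ c b' → χ s = c b := by
      intro s hs hne
      rw [← hcb'] at hne
      rcases hχ s hs with h3 | h3 <;> rcases hχ t ht with h4 | h4 <;> rcases hcb with h5 | h5
      · exact absurd (h3.trans h4.symm) hne
      · exact absurd (h3.trans h4.symm) hne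
      · exact h3.trans h5.symm
      · exact absurd (h4.trans h5.symm) hcase
      · exact absurd (h4.trans h5.symm) hcase
      · exact h3.trans h5.symm
      · exact absurd (h3.trans h4.symm) hne
      · exact absurd (h3.trans h4.symm) hne
    have h3 := key _ (Nat.mul_pos ht (by omega)) h1
    have h4 := key _ (Nat.mul_pos (Nat.mul_pos ht hb0) (by omega)) h2
    refine hg _ b (Nat.mul_pos ht (by omega)) hb h3 ?_
    rw [← h4]
    congr 1
    ring

lemma exists_set {c : ℕ → Fin 3} (hc : Free c) :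
    ∃ W : Set ℕ, (∀ w ∈ W, 3 ≤ w) ∧ NoOddRelation W ∧
      ∀ a b : ℕ, 1 < a → 1 < b → a + 1 ∉ W → b + 1 ∉ W → a ^ (b + 1) + 1 ∈ W := by
  classical
  obtain ⟨b0, hb0, hns⟩ := exists_not_small c
  obtain ⟨b1, b2, hb1, hb2, hs1, hs2, h12⟩ := two_small hc
  obtain ⟨χ, hg, hs, -⟩ := exists_good_small hc
  have h01 : c b0 ≠ c b1 := fun h => hns (h ▸ hs1)
  have h02 : c b0 ≠ c b2 := fun h => hns (h ▸ hs2)
  have hχ : ∀ t, 0 < t → χ t = c b1 ∨ χ t = c b2 := fun t ht =>
    third h01 h02 h12 fun h => hns (h ▸ hs t ht)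
  refine ⟨{d | ∃ b, 1 < b ∧ c b ≠ c b0 ∧ d = b + 1}, ?_, ?_, ?_⟩
  · rintro w ⟨b, hb, -, rfl⟩
    omega
  · have key : ∀ u : List ℕ, (∀ w ∈ u, w ∈ {d | ∃ b, 1 < b ∧ c b ≠ c b0 ∧ d = b + 1}) →
        0 < u.prod ∧ (χ u.prod = χ 1 ↔ Even u.length) := by
      intro u
      induction u with
      | nil => intro _; simp
      | cons w u ih =>
        intro hu
        obtain ⟨hpos, hiff⟩ := ih fun x hx => hu x (List.mem_cons_of_mem _ hx)
        obtain ⟨b, hb, hcb, rfl⟩ := hu w List.mem_cons_self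
        have hsw := swap hg hb1 hb2 hχ hpos hb (third h01 h02 h12 hcb)
        rw [List.prod_cons, List.length_cons, mul_comm]
        have hpos' : 0 < u.prod * (b + 1) := Nat.mul_pos hpos (by omega)
        refine ⟨hpos', ?_⟩
        rw [Nat.even_add_one, ← hiff]
        constructor
        · intro h h'
          exact hsw (h.trans h'.symm)
        · intro h
          rcases hχ _ hpos with h1 | h1 <;> rcases hχ _ hpos' with h2 | h2 <;>
            rcases hχ 1 one_pos with h3 | h3
          · exact absurd (h1.trans h3.symm) h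
          · exact absurd (h2.trans h1.symm) hsw
          · exact absurd (h1.trans h3.symm) h
          · exact h2.trans h3.symm
          · exact h2.trans h3.symm
          · exact absurd (h1.trans h3.symm) h
          · exact absurd (h2.trans h1.symm) hsw
          · exact absurd (h1.trans h3.symm) h
    intro u v hu hv huv
    rw [← (key u hu).2, ← (key v hv).2, huv]
  · intro a b ha hb ha1 hb1'
    have hca : c a = c b0 := by
      by_contra h
      exact ha1 ⟨a, ha, h, rfl⟩
    have hcb : c b = c b0 := by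
      by_contra h
      exact hb1' ⟨b, hb, h, rfl⟩
    refine ⟨a ^ (b + 1), Nat.one_lt_pow (by omega) ha, ?_, rfl⟩
    have := hc a b ha hb (hca.trans hcb.symm)
    rw [hcb] at this
    exact this.symm

/-! ### From the set to the colouring -/

/-- `t` and `u` are connected by factors in `W`, the number of which has the parity of `p` -/
def Conn (W : Set ℕ) (p : ℕ) (t u : ℕ) : Prop :=
  ∃ x y : List ℕ, (∀ w ∈ x, w ∈ W) ∧ (∀ w ∈ y, w ∈ W) ∧ t * x.prod = u * y.prod ∧
    (x.length + y.length) % 2 = p % 2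

lemma Conn.symm {W : Set ℕ} {p t u : ℕ} (h : Conn W p t u) : Conn W p u t := by
  obtain ⟨x, y, hx, hy, he, hp⟩ := h
  exact ⟨y, x, hy, hx, he.symm, by omega⟩

lemma prod_pos_of {W : Set ℕ} (hW : ∀ w ∈ W, 3 ≤ w) {x : List ℕ} (hx : ∀ w ∈ x, w ∈ W) :
    0 < x.prod :=
  List.prod_pos fun w hw => lt_of_lt_of_le (by norm_num) (hW w (hx w hw))

lemma mem_append {W : Set ℕ} {x y : List ℕ} (hx : ∀ w ∈ x, w ∈ W) (hy : ∀ w ∈ y, w ∈ W) :
    ∀ w ∈ x ++ y, w ∈ W := fun w hw => (List.mem_append.1 hw).elim (hx w) (hy w)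

lemma Conn.trans {W : Set ℕ} {p q t u v : ℕ} (h : Conn W p t u) (h' : Conn W q u v) :
    Conn W (p + q) t v := by
  obtain ⟨x, y, hx, hy, he, hp⟩ := h
  obtain ⟨x', y', hx', hy', he', hq⟩ := h'
  refine ⟨x ++ x', y' ++ y, mem_append hx hx', mem_append hy' hy, ?_, ?_⟩
  · rw [List.prod_append, List.prod_append]
    calc t * (x.prod * x'.prod) = t * x.prod * x'.prod := by ring
      _ = u * x'.prod * y.prod := by rw [he]; ring
      _ = v * (y'.prod * y.prod) := by rw [he']; ring
  · rw [List.length_append, List.length_append]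
    omega

lemma Conn.unique {W : Set ℕ} (hW : ∀ w ∈ W, 3 ≤ w) (hN : NoOddRelation W) {t u : ℕ}
    (ht : 0 < t) (h : Conn W 0 t u) (h' : Conn W 1 t u) : False := by
  obtain ⟨x, y, hx, hy, he, hp⟩ := h
  obtain ⟨x', y', hx', hy', he', hq⟩ := h'
  have hxpos := prod_pos_of hW hx
  have hu : 0 < u := by
    rcases Nat.eq_zero_or_pos u with rfl | h
    · rw [zero_mul] at he
      exact absurd he (Nat.mul_pos ht hxpos).ne'
    · exact h
  have hprod : (x ++ y').prod = (y ++ x').prod := by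
    rw [List.prod_append, List.prod_append]
    have h1 : t * u * (x.prod * y'.prod) = t * u * (y.prod * x'.prod) := by
      calc t * u * (x.prod * y'.prod) = (t * x.prod) * (u * y'.prod) := by ring
        _ = (u * y.prod) * (t * x'.prod) := by rw [he, he']
        _ = t * u * (y.prod * x'.prod) := by ring
    exact Nat.eq_of_mul_eq_mul_left (Nat.mul_pos ht hu) h1
  have h2 := hN _ _ (mem_append hx hy') (mem_append hy hx') hprod
  rw [List.length_append, List.length_append, Nat.even_iff, Nat.even_iff] at h2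
  omega

/-- connected integers -/
def connSetoid (W : Set ℕ) : Setoid ℕ where
  r t u := ∃ p, Conn W p t u
  iseqv :=
    ⟨fun t => ⟨0, [], [], by simp, by simp, rfl, rfl⟩, fun ⟨p, h⟩ => ⟨p, h.symm⟩,
      fun ⟨p, h⟩ ⟨q, h'⟩ => ⟨p + q, h.trans h'⟩⟩

/-- the representative of the component -/
noncomputable def rep (W : Set ℕ) (t : ℕ) : ℕ := (Quotient.mk (connSetoid W) t).out

lemma conn_rep (W : Set ℕ) (t : ℕ) : ∃ p, Conn W p t (rep W t) := by
  have h : (connSetoid W).r (rep W t) t := Quotient.mk_out (s := connSetoid W) t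
  obtain ⟨p, h⟩ := h
  exact ⟨p, h.symm⟩

lemma rep_mul {W : Set ℕ} {t w : ℕ} (hw : w ∈ W) : rep W (t * w) = rep W t := by
  unfold rep
  congr 1
  apply Quotient.sound (s := connSetoid W)
  exact ⟨1, [], [w], by simp, by simpa using hw, by simp, rfl⟩

lemma exists_parity {W : Set ℕ} (hW : ∀ w ∈ W, 3 ≤ w) (hN : NoOddRelation W) :
    ∃ τ : ℕ → Prop, ∀ t w, 0 < t → w ∈ W → (τ (t * w) ↔ ¬ τ t) := by
  refine ⟨fun t => Conn W 0 t (rep W t), fun t w ht hw => ?_⟩
  show Conn W 0 (t * w) (rep W (t * w)) ↔ ¬ Conn W 0 t (rep W t)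
  rw [rep_mul hw]
  have hstep : Conn W 1 (t * w) t :=
    ⟨[], [w], by simp, by simpa using hw, by simp, rfl⟩
  have hpar : ∀ {p q : ℕ}, p % 2 = q % 2 → ∀ {a b : ℕ}, Conn W p a b → Conn W q a b := by
    rintro p q hpq a b ⟨x, y, hx, hy, he, hp⟩
    exact ⟨x, y, hx, hy, he, by omega⟩
  have hpos : 0 < t * w := Nat.mul_pos ht (lt_of_lt_of_le (by norm_num) (hW w hw))
  constructor
  · intro h h0
    exact Conn.unique hW hN hpos h (hpar (by norm_num) (hstep.trans h0))
  · intro h
    obtain ⟨p, hp⟩ := conn_rep W t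
    have hp1 : p % 2 = 1 := by
      by_contra hne
      exact h (hpar (by omega) hp)
    exact hpar (by omega) (hstep.trans hp)

/-- the exponent of the least prime factor -/
def e (a : ℕ) : ℕ := a.factorization a.minFac

lemma e_pos {a : ℕ} (ha : 1 < a) : 0 < e a :=
  (Nat.minFac_prime (by omega : a ≠ 1)).factorization_pos_of_dvd (by omega) (Nat.minFac_dvd a)

lemma e_pow {a k : ℕ} (hk : k ≠ 0) : e (a ^ k) = e a * k := by
  unfold e
  rw [Nat.pow_minFac hk, Nat.factorization_pow]
  simp [mul_comm]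

open Classical in
/-- the colouring belonging to `W` and `τ` -/
noncomputable def col (W : Set ℕ) (τ : ℕ → Prop) (n : ℕ) : Fin 3 :=
  if n + 1 ∉ W then 0 else if τ (e n) then 1 else 2

lemma col_zero {W : Set ℕ} {τ : ℕ → Prop} {n : ℕ} : col W τ n = 0 ↔ n + 1 ∉ W := by
  unfold col
  split_ifs with h1 h2 <;> simp_all

lemma col_of_mem {W : Set ℕ} {τ : ℕ → Prop} {n : ℕ} (h : n + 1 ∈ W) :
    col W τ n = 1 ↔ τ (e n) := by
  unfold col
  rw [if_neg (not_not.2 h)]
  split_ifs with h2 <;> simp_all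

/-- **Three colours.** -/
theorem result : (∃ c : ℕ → Fin 3, ∀ a b : ℕ, 1 < a → 1 < b → c a = c b → c b ≠ c (a ^ (b + 1))) ↔
    ∃ W : Set ℕ, (∀ w ∈ W, 3 ≤ w) ∧ NoOddRelation W ∧
      ∀ a b : ℕ, 1 < a → 1 < b → a + 1 ∉ W → b + 1 ∉ W → a ^ (b + 1) + 1 ∈ W := by
  constructor
  · rintro ⟨c, hc⟩
    exact exists_set hc
  · rintro ⟨W, hW, hN, hF⟩
    obtain ⟨τ, hτ⟩ := exists_parity hW hN
    refine ⟨col W τ, fun a b ha hb h1 h2 => ?_⟩
    by_cases hb0 : b + 1 ∈ W
    · have ha0 : a + 1 ∈ W := by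
        by_contra h
        exact (col_zero.1 (h1 ▸ col_zero.2 h)) hb0
      have hab0 : a ^ (b + 1) + 1 ∈ W := by
        by_contra h
        exact (col_zero.1 (h2.symm ▸ col_zero.2 h)) hb0
      have h3 := hτ (e a) (b + 1) (e_pos ha) hb0
      rw [← e_pow (Nat.succ_ne_zero b), ← col_of_mem (W := W) (τ := τ) hab0,
        ← col_of_mem (W := W) (τ := τ) ha0, ← h2, ← h1] at h3
      tauto
    · have hcb := (col_zero (τ := τ)).2 hb0
      have ha0 : a + 1 ∉ W := col_zero.1 (h1.trans hcb)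
      have hab := hF a b ha hb ha0 hb0
      exact (col_zero.1 (h2.symm.trans hcb)) hab

end Pool.Agent.Results.MP_8b5829_co.ThreeColours
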